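import Mathlib
import Pool.Agent.Lib.helper23.Tens

namespace Pool.Agent.Results.MP_176834_co.NotCondB

open Pool.Agent.Lib.H23Tens

/-- Condition (b) fails for tensor restriction over every field. -/
theorem result.{u} (F : Type u) [Field F] :
    ¬ ∃ (c : ℚ → Tensor3 F) (b : Tensor3 F) (s t : ℝ), 1 < s ∧ s < t ∧
      (∀ q r : ℚ, 2 ≤ q → q ≤ r → Restricts (c q) (c r)) ∧
      ∀ l : ℝ, s ≤ l → l ≤ t → ∃ f : Tensor3 F → NNReal, InSpectrum f ∧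
        (∀ q : ℚ, 2 ≤ q → (f (c q) : ℝ) = q) ∧ (f b : ℝ) = l := by
  rintro ⟨c, b, s, t, -, hst, hc, hf⟩
  obtain ⟨f, hf, hq, -⟩ := hf s le_rfl hst.le
  have h2 : ∀ n : ℕ, (2 : ℚ) ≤ 2 + 1 / ((n : ℚ) + 1) := fun n => by
    have : (0 : ℚ) ≤ 1 / ((n : ℚ) + 1) := by positivity
    linarith
  have hlt : ∀ n : ℕ, (2 : ℚ) + 1 / (((n + 1 : ℕ) : ℚ) + 1) < 2 + 1 / ((n : ℚ) + 1) := fun n => by
    have : 1 / (((n + 1 : ℕ) : ℚ) + 1) < 1 / ((n : ℚ) + 1) := by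
      apply one_div_lt_one_div_of_lt (by positivity)
      push_cast; linarith
    linarith
  obtain ⟨n, hn⟩ := no_desc (fun n : ℕ => c (2 + 1 / ((n : ℚ) + 1)))
    (fun n => hc _ _ (h2 (n + 1)) (hlt n).le)
  have h3 := hf.1 _ _ hn
  have h4 : (f (c (2 + 1 / ((n : ℚ) + 1))) : ℝ) ≤ f (c (2 + 1 / (((n + 1 : ℕ) : ℚ) + 1))) := h3
  rw [hq _ (h2 n), hq _ (h2 (n + 1))] at h4
  have h5 := hlt n
  have h6 : (2 : ℚ) + 1 / ((n : ℚ) + 1) ≤ 2 + 1 / (((n + 1 : ℕ) : ℚ) + 1) := by exact_mod_cast h4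
  linarith

end Pool.Agent.Results.MP_176834_co.NotCondB
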