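import Mathlib
import Pool.Agent.Lib.helper23.Tens

namespace Pool.Agent.Results.MP_176834_co.NotUniversal

open Pool.Agent.Lib.H23Tens

/-- Tensor restriction over any field is not countably universal. -/
theorem result.{u} (F : Type u) [Field F] :
    ¬ ∀ (P : Type) [Countable P] [Preorder P], ∃ φ : P → Tensor3 F,
      ∀ x y : P, x ≤ y ↔ Restricts (φ x) (φ y) := by
  intro h
  obtain ⟨φ, hφ⟩ := h ℤ
  obtain ⟨n, hn⟩ := no_desc (fun n : ℕ => φ (-(n : ℤ)))
    (fun n => (hφ _ _).1 (by push_cast; omega))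
  have := (hφ _ _).2 hn
  push_cast at this
  omega

end Pool.Agent.Results.MP_176834_co.NotUniversal
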